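import Pool.Agent.TH948.BD.Defs
import Pool.Agent.TH965.Final

set_option autoImplicit false
set_option linter.unusedSectionVars false

namespace Pool.Agent.TH948.BD

open Finset
open scoped Classical
open Pool.Agent.TH965.Spread Pool.Agent.TH948.KK

namespace Lim

/-- the probability of the complement of a property -/
noncomputable def qf (n : ℕ) (p : ℝ) (P : SimpleGraph (Fin n) → Prop) : ℝ :=
  exs (Pool.Agent.TH965.Emb.eF (⊤ : SimpleGraph (Fin n))) p
    (fun W => if P (SimpleGraph.fromEdgeSet (W : Set (Sym2 (Fin n)))) then 0 else 1)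

lemma gnp_add_qf (n : ℕ) (p : ℝ) (P : SimpleGraph (Fin n) → Prop) :
    Pool.Agent.TH965.gnp n p P + qf n p P = 1 := by
  rw [Pool.Agent.TH965.gnp_eq_exs, qf, ← exs_add]
  refine Eq.trans ?_ (exs_const (Pool.Agent.TH965.Emb.eF (⊤ : SimpleGraph (Fin n))) p 1)
  congr 1
  funext W
  split_ifs <;> norm_num

lemma qf_nonneg (n : ℕ) {p : ℝ} (hp0 : 0 ≤ p) (hp1 : p ≤ 1) (P : SimpleGraph (Fin n) → Prop) :
    0 ≤ qf n p P := by
  have h := exs_mono (Pool.Agent.TH965.Emb.eF (⊤ : SimpleGraph (Fin n))) hp0 hp1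
    (f := fun _ => (0 : ℝ))
    (g := fun W => if P (SimpleGraph.fromEdgeSet (W : Set (Sym2 (Fin n)))) then (0 : ℝ) else 1)
    (by intro W _; split_ifs <;> norm_num)
  rw [exs_const] at h
  exact h

lemma qf_pow (n : ℕ) {p : ℝ} (hp0 : 0 ≤ p) (hp1 : p ≤ 1) (P : SimpleGraph (Fin n) → Prop)
    (hP : ∀ G G' : SimpleGraph (Fin n), G ≤ G' → P G → P G') (K : ℕ) :
    qf n (1 - (1 - p) ^ K) P ≤ qf n p P ^ K := by
  induction K with
  | zero =>
    have h0 : (1 : ℝ) - (1 - p) ^ 0 = 0 := by norm_num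
    rw [h0, pow_zero]
    have h1 := gnp_add_qf n 0 P
    have h2 : 0 ≤ Pool.Agent.TH965.gnp n 0 P := by
      unfold Pool.Agent.TH965.gnp
      apply Finset.sum_nonneg
      intro G _
      split_ifs
      · have : (0 : ℝ) ≤ 1 - 0 := by norm_num
        positivity
      · exact le_refl 0
    linarith
  | succ K ih =>
    have e1 : 1 - (1 - p) ^ (K + 1) = p + (1 - (1 - p) ^ K) - p * (1 - (1 - p) ^ K) := by ring
    have h1p : 0 ≤ 1 - p := by linarith
    have hpow0 : 0 ≤ (1 - p) ^ K := by positivity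
    have hpow1 : (1 - p) ^ K ≤ 1 := pow_le_one₀ h1p (by linarith)
    rw [e1]
    unfold qf
    rw [exs_union]
    have hinner : ∀ W₁ : Finset (Sym2 (Fin n)), W₁ ⊆ Pool.Agent.TH965.Emb.eF ⊤ →
        exs (Pool.Agent.TH965.Emb.eF (⊤ : SimpleGraph (Fin n))) (1 - (1 - p) ^ K) (fun W₂ =>
          if P (SimpleGraph.fromEdgeSet ((W₁ ∪ W₂ : Finset (Sym2 (Fin n))) : Set (Sym2 (Fin n))))
            then (0 : ℝ) else 1)
        ≤ (qf n p P ^ K) *
          (if P (SimpleGraph.fromEdgeSet (W₁ : Set (Sym2 (Fin n)))) then (0 : ℝ) else 1) := by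
      intro W₁ _
      have h2 : exs (Pool.Agent.TH965.Emb.eF (⊤ : SimpleGraph (Fin n))) (1 - (1 - p) ^ K) (fun W₂ =>
          if P (SimpleGraph.fromEdgeSet ((W₁ ∪ W₂ : Finset (Sym2 (Fin n))) : Set (Sym2 (Fin n))))
            then (0 : ℝ) else 1)
          ≤ exs (Pool.Agent.TH965.Emb.eF (⊤ : SimpleGraph (Fin n))) (1 - (1 - p) ^ K) (fun W₂ =>
          (if P (SimpleGraph.fromEdgeSet (W₁ : Set (Sym2 (Fin n)))) then (0 : ℝ) else 1) *
          (if P (SimpleGraph.fromEdgeSet (W₂ : Set (Sym2 (Fin n)))) then (0 : ℝ) else 1)) := by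
        apply exs_mono _ (by linarith) (by linarith)
        intro W₂ _
        by_cases hu : P (SimpleGraph.fromEdgeSet
            ((W₁ ∪ W₂ : Finset (Sym2 (Fin n))) : Set (Sym2 (Fin n))))
        · rw [if_pos hu]
          split_ifs <;> norm_num
        · have h3 : ¬ P (SimpleGraph.fromEdgeSet (W₁ : Set (Sym2 (Fin n)))) := by
            intro h
            apply hu
            apply hP _ _ _ h
            apply SimpleGraph.fromEdgeSet_mono
            rw [Finset.coe_union]
            exact Set.subset_union_left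
          have h4 : ¬ P (SimpleGraph.fromEdgeSet (W₂ : Set (Sym2 (Fin n)))) := by
            intro h
            apply hu
            apply hP _ _ _ h
            apply SimpleGraph.fromEdgeSet_mono
            rw [Finset.coe_union]
            exact Set.subset_union_right
          rw [if_neg hu, if_neg h3, if_neg h4, one_mul]
      refine h2.trans ?_
      rw [exs_mul_left, mul_comm]
      apply mul_le_mul_of_nonneg_right _ (by split_ifs <;> norm_num)
      exact ih
    refine (exs_mono _ hp0 hp1 hinner).trans ?_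
    rw [exs_mul_left, pow_succ]
    exact le_of_eq rfl

lemma cont_mono {n : ℕ} (H : SimpleGraph (Fin n)) :
    ∀ G G' : SimpleGraph (Fin n), G ≤ G' →
      (∃ f : Fin n → Fin n, Function.Injective f ∧ ∀ u v : Fin n, H.Adj u v → G.Adj (f u) (f v)) →
      (∃ f : Fin n → Fin n, Function.Injective f ∧ ∀ u v : Fin n, H.Adj u v → G'.Adj (f u) (f v)) := by
  rintro G G' hG ⟨f, hf, h⟩
  exact ⟨f, hf, fun u v huv => hG (h u v huv)⟩

end Lim

open Lim in
theorem final_of
    (h : ∀ r : ℕ, 2 ≤ r → ∃ C : ℝ, 0 < C ∧ ∀ᶠ n : ℕ in Filter.atTop,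
      ∀ H : SimpleGraph (Fin n), (∀ v, H.degree v ≤ r - 1) →
        C * ((n : ℝ) ^ (-((2 : ℝ) / r)) * (Real.log n) ^ ((1 : ℝ) / ((r.choose 2 : ℕ) : ℝ))) ≤ 1 →
        5 / 7 ≤ Pool.Agent.TH965.gnp n
          (C * ((n : ℝ) ^ (-((2 : ℝ) / r)) * (Real.log n) ^ ((1 : ℝ) / ((r.choose 2 : ℕ) : ℝ))))
          (fun G => ∃ f : Fin n → Fin n, Function.Injective f ∧
            ∀ u v : Fin n, H.Adj u v → G.Adj (f u) (f v))) :
    ∀ (Δ : ℕ) (H : ∀ n : ℕ, SimpleGraph (Fin n)) (p : ℕ → ℝ),
      (∀ (n : ℕ) (v : Fin n), (H n).degree v ≤ Δ) →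
      (∀ n : ℕ, 0 ≤ p n ∧ p n ≤ 1) →
      Filter.Tendsto
        (fun n : ℕ => p n * (n : ℝ) ^ ((2 : ℝ) / ((Δ : ℝ) + 1)) /
          (Real.log (n : ℝ)) ^ ((1 : ℝ) / (((Δ + 1).choose 2 : ℕ) : ℝ)))
        Filter.atTop Filter.atTop →
      Filter.Tendsto
        (fun n : ℕ => ∑ G : SimpleGraph (Fin n),
          if (∃ f : Fin n → Fin n, Function.Injective f ∧
                ∀ u v : Fin n, (H n).Adj u v → G.Adj (f u) (f v))
          then p n ^ G.edgeFinset.card * (1 - p n) ^ (n.choose 2 - G.edgeFinset.card)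
          else 0)
        Filter.atTop (nhds 1) := by
  intro Δ H p hdeg hp hlim
  have hsum : (fun n : ℕ => ∑ G : SimpleGraph (Fin n),
          if (∃ f : Fin n → Fin n, Function.Injective f ∧
                ∀ u v : Fin n, (H n).Adj u v → G.Adj (f u) (f v))
          then p n ^ G.edgeFinset.card * (1 - p n) ^ (n.choose 2 - G.edgeFinset.card)
          else 0) = fun n : ℕ => Pool.Agent.TH965.gnp n (p n)
            (fun G => ∃ f : Fin n → Fin n, Function.Injective f ∧
              ∀ u v : Fin n, (H n).Adj u v → G.Adj (f u) (f v)) := by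
    funext n
    unfold Pool.Agent.TH965.gnp
    apply Finset.sum_congr rfl
    intro G _
    have : G.edgeFinset.card = G.edgeSet.ncard := by
      rw [← Set.ncard_coe_finset, SimpleGraph.coe_edgeFinset]
    rw [this]
    by_cases hc : ∃ f : Fin n → Fin n, Function.Injective f ∧
        ∀ u v : Fin n, (H n).Adj u v → G.Adj (f u) (f v)
    · rw [if_pos hc]
      exact (if_pos hc).symm
    · rw [if_neg hc]
      exact (if_neg hc).symm
  rw [hsum]
  have hle1 : ∀ n, Pool.Agent.TH965.gnp n (p n)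
            (fun G => ∃ f : Fin n → Fin n, Function.Injective f ∧
              ∀ u v : Fin n, (H n).Adj u v → G.Adj (f u) (f v)) ≤ 1 := by
    intro n
    have h1 := gnp_add_qf n (p n) (fun G => ∃ f : Fin n → Fin n, Function.Injective f ∧
              ∀ u v : Fin n, (H n).Adj u v → G.Adj (f u) (f v))
    have h2 := qf_nonneg n (hp n).1 (hp n).2 (fun G => ∃ f : Fin n → Fin n, Function.Injective f ∧
              ∀ u v : Fin n, (H n).Adj u v → G.Adj (f u) (f v))
    linarith
  rcases Nat.eq_zero_or_pos Δ with hΔ | hΔ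
  · -- no edges
    subst hΔ
    have hev : ∀ n, Pool.Agent.TH965.gnp n (p n)
            (fun G => ∃ f : Fin n → Fin n, Function.Injective f ∧
              ∀ u v : Fin n, (H n).Adj u v → G.Adj (f u) (f v)) = 1 := by
      intro n
      have hno : ∀ u v : Fin n, ¬ (H n).Adj u v := by
        intro u v huv
        have h1 := hdeg n u
        rw [Nat.le_zero, ← SimpleGraph.card_neighborFinset_eq_degree, Finset.card_eq_zero] at h1
        have h2 : v ∈ (H n).neighborFinset u := by
          rw [SimpleGraph.mem_neighborFinset]; exact huv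
        rw [h1] at h2
        exact absurd h2 (Finset.notMem_empty _)
      rw [Pool.Agent.TH965.gnp_eq_exs]
      refine Eq.trans ?_ (exs_const (Pool.Agent.TH965.Emb.eF (⊤ : SimpleGraph (Fin n))) (p n) 1)
      congr 1
      funext W
      rw [if_pos]
      exact ⟨id, Function.injective_id, fun u v huv => absurd huv (hno u v)⟩
    simp only [hev]
    exact tendsto_const_nhds
  · obtain ⟨C, hC, hCev⟩ := h (Δ + 1) (by omega)
    rw [tendsto_order]
    refine ⟨?_, fun a ha => Filter.Eventually.of_forall (fun n => (hle1 n).trans_lt ha)⟩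
    intro a ha
    obtain ⟨K, hK⟩ : ∃ K : ℕ, (2 / 7 : ℝ) ^ K < 1 - a :=
      exists_pow_lt_of_lt_one (by linarith) (by norm_num)
    have hK1 : (2 / 7 : ℝ) ^ (K + 1) < 1 - a := by
      refine lt_of_le_of_lt ?_ hK
      exact pow_le_pow_of_le_one (by norm_num) (by norm_num) (Nat.le_succ K)
    filter_upwards [hCev, hlim.eventually_ge_atTop (((K + 1 : ℕ) : ℝ) * C),
      Filter.eventually_ge_atTop 3] with n hn1 hn2 hn3
    have hn0 : (0 : ℝ) < n := by exact_mod_cast (by omega : 0 < n)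
    have hlog : 0 < Real.log n := Real.log_pos (by exact_mod_cast (by omega : 1 < n))
    set b : ℝ := ((n : ℝ) ^ (-((2 : ℝ) / ((Δ + 1 : ℕ) : ℝ))) *
      (Real.log n) ^ ((1 : ℝ) / (((Δ + 1).choose 2 : ℕ) : ℝ))) with hb
    have hb0 : 0 < b := by
      rw [hb]
      exact mul_pos (Real.rpow_pos_of_pos hn0 _) (Real.rpow_pos_of_pos hlog _)
    have hpb : ((K + 1 : ℕ) : ℝ) * (C * b) ≤ p n := by
      have hL : 0 < (Real.log n) ^ ((1 : ℝ) / (((Δ + 1).choose 2 : ℕ) : ℝ)) :=
        Real.rpow_pos_of_pos hlog _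
      have hN : 0 < (n : ℝ) ^ ((2 : ℝ) / ((Δ : ℝ) + 1)) := Real.rpow_pos_of_pos hn0 _
      rw [le_div_iff₀ hL] at hn2
      have hbe : b = (Real.log n) ^ ((1 : ℝ) / (((Δ + 1).choose 2 : ℕ) : ℝ)) /
          (n : ℝ) ^ ((2 : ℝ) / ((Δ : ℝ) + 1)) := by
        rw [hb, Real.rpow_neg hn0.le, mul_comm, div_eq_mul_inv]
        push_cast
        rfl
      rw [hbe, ← mul_div_assoc, ← mul_div_assoc, div_le_iff₀ hN, ← mul_assoc]
      exact hn2
    have hCb0 : 0 < C * b := mul_pos hC hb0
    have hKpos : (1 : ℝ) ≤ ((K + 1 : ℕ) : ℝ) := by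
      have : (0 : ℝ) ≤ (K : ℝ) := Nat.cast_nonneg K
      push_cast; linarith
    have hCb1 : C * b ≤ 1 := by
      have := (hp n).2
      nlinarith
    have h57 := hn1 (H n) (fun v => by simpa using hdeg n v) hCb1
    set P : SimpleGraph (Fin n) → Prop := fun G => ∃ f : Fin n → Fin n, Function.Injective f ∧
              ∀ u v : Fin n, (H n).Adj u v → G.Adj (f u) (f v) with hPdef
    have hq := gnp_add_qf n (C * b) P
    have hq2 : qf n (C * b) P ≤ 2 / 7 := by linarith
    have hq3 := qf_pow n hCb0.le hCb1 P (cont_mono (H n)) (K + 1)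
    have hq4 : qf n (C * b) P ^ (K + 1) ≤ (2 / 7 : ℝ) ^ (K + 1) :=
      pow_le_pow_left₀ (qf_nonneg n hCb0.le hCb1 P) hq2 _
    have hq5 := gnp_add_qf n (1 - (1 - C * b) ^ (K + 1)) P
    have h1p : 0 ≤ 1 - C * b := by linarith
    have hbern : 1 - (1 - C * b) ^ (K + 1) ≤ p n := by
      have h1 := one_add_mul_le_pow (a := -(C * b)) (by linarith) (K + 1)
      have h2 : (1 + -(C * b)) = 1 - C * b := by ring
      rw [h2] at h1
      have h3 : 1 - ((K + 1 : ℕ) : ℝ) * (C * b) ≤ (1 - C * b) ^ (K + 1) := by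
        refine le_trans (le_of_eq ?_) h1
        ring
      linarith
    have hm := Pool.Agent.TH965.gnp_mono n
      (p := 1 - (1 - C * b) ^ (K + 1)) (p' := p n)
      (by
        have := pow_le_one₀ (n := K + 1) h1p (by linarith)
        linarith) hbern (hp n).2 P (cont_mono (H n))
    linarith

end Pool.Agent.TH948.BD
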